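import Pool.Agent.Helper77.LW.Group

/-!
# The Lindemann-Weierstrass theorem
-/

open Polynomial Filter Topology

namespace Pool.Agent.Helper77.LW

theorem exists_galois (s : Finset ℂ) (hs : ∀ a ∈ s, IsAlgebraic ℚ a) :
    ∃ K : IntermediateField ℚ ℂ, FiniteDimensional ℚ K ∧ IsGalois ℚ K ∧ ∀ a ∈ s, a ∈ K := by
  set p : ℚ[X] := ∏ a ∈ s, minpoly ℚ a with hp
  have hp0 : p ≠ 0 := Finset.prod_ne_zero_iff.2 fun a ha => minpoly.ne_zero (hs a ha).isIntegral
  have hspl : (p.map (algebraMap ℚ ℂ)).Splits := IsAlgClosed.splits _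
  have h1 : IsSplittingField ℚ (IntermediateField.adjoin ℚ (p.rootSet ℂ)) p :=
    IntermediateField.adjoin_rootSet_isSplittingField hspl
  have h2 : Normal ℚ (IntermediateField.adjoin ℚ (p.rootSet ℂ)) := Normal.of_isSplittingField p
  have h3 : FiniteDimensional ℚ (IntermediateField.adjoin ℚ (p.rootSet ℂ)) :=
    IsSplittingField.finiteDimensional _ p
  refine ⟨IntermediateField.adjoin ℚ (p.rootSet ℂ), h3, isGalois_iff.2 ⟨inferInstance, h2⟩, ?_⟩
  intro a ha
  refine IntermediateField.subset_adjoin ℚ _ ?_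
  rw [mem_rootSet]
  refine ⟨hp0, ?_⟩
  rw [hp, map_prod]
  exact Finset.prod_eq_zero ha (minpoly.aeval ℚ a)

/-- **Lindemann-Weierstrass theorem**, linear form -/
theorem sum_ne_zero {ι : Type*} (s : Finset ι) (α β : ι → ℂ) (hα : ∀ i ∈ s, IsAlgebraic ℚ (α i))
    (hβ : ∀ i ∈ s, IsAlgebraic ℚ (β i)) (hinj : Set.InjOn α s) {i0 : ι} (hi0 : i0 ∈ s)
    (hi : β i0 ≠ 0) : ∑ i ∈ s, β i * Complex.exp (α i) ≠ 0 := by
  classical
  obtain ⟨K, hK1, hK2, hK⟩ := exists_galois (s.image α ∪ s.image β) (by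
    intro a ha
    rcases Finset.mem_union.1 ha with h | h
    · obtain ⟨i, hi, rfl⟩ := Finset.mem_image.1 h; exact hα i hi
    · obtain ⟨i, hi, rfl⟩ := Finset.mem_image.1 h; exact hβ i hi)
  have hαK : ∀ i ∈ s, α i ∈ K := fun i hi =>
    hK _ (Finset.mem_union_left _ (Finset.mem_image_of_mem _ hi))
  have hβK : ∀ i ∈ s, β i ∈ K := fun i hi =>
    hK _ (Finset.mem_union_right _ (Finset.mem_image_of_mem _ hi))
  set a : ι → K := fun i => if h : α i ∈ K then ⟨α i, h⟩ else 0 with ha
  set b : ι → K := fun i => if h : β i ∈ K then ⟨β i, h⟩ else 0 with hb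
  have ha' : ∀ i ∈ s, (a i : ℂ) = α i := fun i hi => by
    rw [ha]; simp only [dif_pos (hαK i hi)]
  have hb' : ∀ i ∈ s, (b i : ℂ) = β i := fun i hi => by
    rw [hb]; simp only [dif_pos (hβK i hi)]
  set u : AddMonoidAlgebra K K := ∑ i ∈ s, AddMonoidAlgebra.single (a i) (b i) with hu
  have hEu : Ev K u = ∑ i ∈ s, β i * Complex.exp (α i) := by
    rw [hu, map_sum]
    refine Finset.sum_congr rfl fun i hi => ?_
    rw [Ev_single, ha' i hi, hb' i hi]
  rw [← hEu]
  refine Ev_ne_zero K ?_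
  intro h0
  have h1 : u.coeff (a i0) = b i0 := by
    rw [hu, AddMonoidAlgebra.coeff_sum, Finsupp.finsetSum_apply, Finset.sum_eq_single_of_mem i0 hi0]
    · simp
    · intro i hi hne
      rw [AddMonoidAlgebra.coeff_single, Finsupp.single_apply, if_neg]
      intro h
      apply hne
      refine hinj hi hi0 ?_
      rw [← ha' i hi, ← ha' i0 hi0, h]
  rw [h0] at h1
  apply hi
  rw [← hb' i0 hi0, ← h1]
  simp

theorem transcendental_pi : Transcendental ℚ Real.pi := by
  intro h
  have h1 : IsAlgebraic ℚ ((Real.pi : ℂ) * Complex.I) := by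
    refine IsAlgebraic.mul ?_ ?_
    · exact h.algebraMap
    · refine ⟨X ^ 2 + 1, ?_, by simp⟩
      exact Monic.ne_zero (by monicity!)
  refine sum_ne_zero (Finset.univ : Finset (Fin 2)) ![(Real.pi : ℂ) * Complex.I, 0] ![1, 1]
    ?_ ?_ ?_ (Finset.mem_univ 0) (by simp) ?_
  · intro i _
    fin_cases i
    · simpa using h1
    · simpa using isAlgebraic_zero
  · intro i _
    fin_cases i <;> simpa using isAlgebraic_one
  · intro i _ j _ hij
    have hne : (Real.pi : ℂ) * Complex.I ≠ 0 := by simp [Real.pi_ne_zero]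
    fin_cases i <;> fin_cases j <;> simp_all
  · simp [Fin.sum_univ_two, Complex.exp_pi_mul_I]

/-- **Lindemann-Weierstrass theorem**, algebraic independence -/
theorem algebraicIndependent_exp {ι : Type*} (α : ι → ℂ) (hα : ∀ i, IsAlgebraic ℚ (α i))
    (hli : LinearIndependent ℚ α) : AlgebraicIndependent ℚ (fun i => Complex.exp (α i)) := by
  classical
  rw [algebraicIndependent_iff]
  intro p hp
  by_contra hp0
  obtain ⟨m0, hm0⟩ := MvPolynomial.support_nonempty.2 hp0
  set γ : (ι →₀ ℕ) → ℂ := fun m => m.sum fun i k => (k : ℂ) * α i with hγ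
  have hinj : Function.Injective γ := by
    intro m n hmn
    have h1 : ∀ m : ι →₀ ℕ, γ m =
        Finsupp.linearCombination ℚ α (m.mapRange (fun k : ℕ => (k : ℚ)) (by simp)) := by
      intro m
      rw [hγ, Finsupp.linearCombination_apply, Finsupp.sum_mapRange_index (by simp)]
      refine Finsupp.sum_congr fun i _ => ?_
      rw [Rat.smul_def]; simp
    rw [h1, h1] at hmn
    have h2 := hli hmn
    exact Finsupp.mapRange_injective _ (by simp) Nat.cast_injective h2
  refine sum_ne_zero p.support γ (fun m => ((p.coeff m : ℚ) : ℂ)) ?_ ?_ hinj.injOn hm0 ?_ ?_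
  · intro m _
    rw [hγ]
    refine isAlgebraic_iff_isIntegral.2 (IsIntegral.sum _ fun i _ => ?_)
    refine isAlgebraic_iff_isIntegral.1 ?_
    have h := (isAlgebraic_algebraMap (R := ℚ) (A := ℂ) (m i : ℚ)).mul (hα i)
    simpa using h
  · intro m _
    exact isAlgebraic_algebraMap (R := ℚ) (A := ℂ) (p.coeff m)
  · exact_mod_cast MvPolynomial.mem_support_iff.1 hm0
  · rw [← hp, MvPolynomial.aeval_def, MvPolynomial.eval₂_eq]
    refine Finset.sum_congr rfl fun m _ => ?_
    congr 1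
    rw [hγ]
    simp only [Finsupp.sum, Complex.exp_sum]
    refine Finset.prod_congr rfl fun i _ => ?_
    rw [Complex.exp_nat_mul]

end Pool.Agent.Helper77.LW
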