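import Mathlib

/-!
# Arithmetic part of the Lindemann-Weierstrass theorem

From the analytic part in Mathlib (`LindemannWeierstrass.exp_polynomial_approx`): a Galois
invariant relation with integer coefficients and nonzero constant term is impossible.
-/

open Polynomial Filter Topology
open scoped Nat

namespace Pool.Agent.Helper77.LW

theorem integral_pow_mul_aeval {L : Type*} [CommRing L] (k : ℤ) (x : L)
    (hx : IsIntegral ℤ ((k : L) * x)) (g : ℤ[X]) (m : ℕ) (hm : g.natDegree ≤ m) :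
    IsIntegral ℤ ((k : L) ^ m * aeval x g) := by
  rw [aeval_eq_sum_range, Finset.mul_sum]
  refine IsIntegral.sum _ fun i hi => ?_
  have hi' : i ≤ m := (Nat.lt_succ_iff.1 (Finset.mem_range.1 hi)).trans hm
  have h1 : (k : L) ^ m * (g.coeff i • x ^ i) =
      ((g.coeff i * k ^ (m - i) : ℤ) : L) * ((k : L) * x) ^ i := by
    rw [zsmul_eq_mul, mul_pow]
    have h2 : (k : L) ^ m = (k : L) ^ (m - i) * (k : L) ^ i := by
      rw [← pow_add, Nat.sub_add_cancel hi']
    rw [h2]
    push_cast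
    ring
  rw [h1]
  exact (isIntegral_algebraMap (R := ℤ) (A := L) (x := g.coeff i * k ^ (m - i))).mul (hx.pow i)

/-- a rational algebraic integer of a Galois extension is an integer -/
theorem exists_int {L : Type*} [Field L] [Algebra ℚ L] [FiniteDimensional ℚ L] [IsGalois ℚ L]
    {T : L} (hT : IsIntegral ℤ T) (hG : ∀ σ : L ≃ₐ[ℚ] L, σ T = T) : ∃ Z : ℤ, T = (Z : L) := by
  obtain ⟨t, rfl⟩ := (IsGalois.mem_range_algebraMap_iff_fixed T).2 hG
  have h1 : IsIntegral ℤ t := by
    rwa [isIntegral_algebraMap_iff (algebraMap ℚ L).injective] at hT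
  obtain ⟨Z, rfl⟩ := IsIntegrallyClosed.isIntegral_iff.1 h1
  exact ⟨Z, by simp⟩

theorem core (K : IntermediateField ℚ ℂ) [FiniteDimensional ℚ K] [IsGalois ℚ K]
    (S : Finset K) (c : K → ℤ) (c0 : ℤ) (hc0 : c0 ≠ 0) (hS0 : (0 : K) ∉ S)
    (hSG : ∀ σ : K ≃ₐ[ℚ] K, ∀ x ∈ S, σ x ∈ S) (hcG : ∀ σ : K ≃ₐ[ℚ] K, ∀ x, c (σ x) = c x) :
    (c0 : ℂ) + ∑ x ∈ S, (c x : ℂ) * Complex.exp (x : ℂ) ≠ 0 := by
  intro h0
  -- polynomials
  have hpol : ∀ x : K, ∃ q : ℤ[X], x ∈ S → q.coeff 0 ≠ 0 ∧ aeval x q = 0 := by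
    intro x
    by_cases hx : x ∈ S
    · have halg : IsAlgebraic ℤ x := by
        have h1 : IsAlgebraic ℚ x := Algebra.IsAlgebraic.isAlgebraic x
        exact (IsFractionRing.isAlgebraic_iff ℤ ℚ K).2 h1
      have hx0 : x ≠ 0 := fun h => hS0 (h ▸ hx)
      obtain ⟨q, hq⟩ := halg.exists_nonzero_coeff_and_aeval_eq_zero
        (mem_nonZeroDivisors_of_ne_zero hx0)
      exact ⟨q, fun _ => hq⟩
    · exact ⟨0, fun h => absurd h hx⟩
  choose q hq using hpol
  set f : ℤ[X] := ∏ x ∈ S, q x with hf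
  have hf0 : f.eval 0 ≠ 0 := by
    rw [hf, eval_prod]
    refine Finset.prod_ne_zero_iff.2 fun x hx => ?_
    rw [← coeff_zero_eq_eval_zero]
    exact (hq x hx).1
  have hfne : f ≠ 0 := by
    rintro h; rw [h] at hf0; simp at hf0
  have hroot : ∀ x ∈ S, (x : ℂ) ∈ f.aroots ℂ := by
    intro x hx
    rw [mem_aroots]
    refine ⟨hfne, ?_⟩
    have h1 : aeval x f = 0 := by
      rw [hf, map_prod]
      exact Finset.prod_eq_zero hx (hq x hx).2
    have h2 := congrArg (algebraMap K ℂ) h1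
    rw [← aeval_algebraMap_apply, map_zero] at h2
    exact h2
  -- denominators
  obtain ⟨k, hk0, hk⟩ : ∃ k : ℤ, k ≠ 0 ∧ ∀ x ∈ S, IsIntegral ℤ ((k : K) * x) := by
    obtain ⟨k, hk0, hk⟩ := exists_integral_multiples ℤ ℚ S
    exact ⟨k, hk0, fun x hx => by simpa [zsmul_eq_mul] using hk x hx⟩
  obtain ⟨C, hC⟩ := LindemannWeierstrass.exp_polynomial_approx f hf0
  set B : ℝ := ∑ x ∈ S, |(c x : ℝ)| with hB
  set M : ℝ := |(k : ℝ)| ^ f.natDegree * |C| with hM
  -- main inequality
  have hmain : ∀ p : ℕ, p.Prime → (f.eval 0).natAbs < p → c0.natAbs < p → k.natAbs < p →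
      1 ≤ B * M ^ p / (p - 1)! := by
    intro p hp hp1 hp2 hp3
    obtain ⟨n, hn, g, hg, hgr⟩ := hC p hp1 hp
    set m : ℕ := p * f.natDegree with hm
    have hgm : g.natDegree ≤ m := hg.trans (Nat.sub_le _ _)
    set T : K := ∑ x ∈ S, (c x : K) * aeval x g with hT
    have hTint : IsIntegral ℤ ((k : K) ^ m * T) := by
      rw [hT, Finset.mul_sum]
      refine IsIntegral.sum _ fun x hx => ?_
      have h1 : (k : K) ^ m * ((c x : K) * aeval x g) = (c x : K) * ((k : K) ^ m * aeval x g) := by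
        ring
      rw [h1]
      exact (isIntegral_algebraMap (R := ℤ) (A := K) (x := c x)).mul
        (integral_pow_mul_aeval k x (hk x hx) g m hgm)
    have hTG : ∀ σ : K ≃ₐ[ℚ] K, σ T = T := by
      intro σ
      have h1 : ∀ x : K, σ ((c x : K) * aeval x g) = (c (σ x) : K) * aeval (σ x) g := by
        intro x
        rw [map_mul, hcG σ x, map_intCast]
        congr 1
        have h2 : (σ : K →+* K) (aeval x g) = aeval (σ x) g := by
          rw [aeval_def, aeval_def, Polynomial.hom_eval₂]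
          congr 1
          exact RingHom.ext_int _ _
        exact h2
      rw [hT, map_sum]
      simp only [h1]
      refine Finset.sum_nbij' (fun x => σ x) (fun x => σ.symm x) ?_ ?_ ?_ ?_ ?_
      · exact fun x hx => hSG σ x hx
      · exact fun x hx => hSG σ.symm x hx
      · intro x _; simp
      · intro x _; simp
      · intro x _; rfl
    obtain ⟨Z, hZ⟩ := exists_int hTint (fun σ => by rw [map_mul, map_pow, map_intCast, hTG])
    have hZC : (k : ℂ) ^ m * ∑ x ∈ S, (c x : ℂ) * aeval (x : ℂ) g = (Z : ℂ) := by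
      have h1 := congrArg (algebraMap K ℂ) hZ
      rw [map_mul, map_pow, map_intCast, map_intCast, hT, map_sum] at h1
      rw [← h1]
      congr 1
      refine Finset.sum_congr rfl fun x _ => ?_
      rw [map_mul, map_intCast, ← aeval_algebraMap_apply]
      rfl
    -- the integer
    have hW : ((k ^ m * n * c0 + p * Z : ℤ) : ℂ) =
        -((k : ℂ) ^ m * ∑ x ∈ S, (c x : ℂ) * (n • Complex.exp x - p • aeval (x : ℂ) g)) := by
      push_cast
      rw [← hZC]
      have h2 : ∑ x ∈ S, (c x : ℂ) * (n • Complex.exp x - p • aeval (x : ℂ) g) =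
          (n : ℂ) * ∑ x ∈ S, (c x : ℂ) * Complex.exp x -
            (p : ℂ) * ∑ x ∈ S, (c x : ℂ) * aeval (x : ℂ) g := by
        rw [Finset.mul_sum, Finset.mul_sum, ← Finset.sum_sub_distrib]
        refine Finset.sum_congr rfl fun x _ => ?_
        rw [zsmul_eq_mul, nsmul_eq_mul]
        ring
      rw [h2]
      have h3 : ∑ x ∈ S, (c x : ℂ) * Complex.exp x = -(c0 : ℂ) := by
        linear_combination h0
      rw [h3]
      ring
    have hWne : k ^ m * n * c0 + p * Z ≠ 0 := by
      intro h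
      have hdvd : (p : ℤ) ∣ k ^ m * n * c0 := by
        have : k ^ m * n * c0 = p * (-Z) := by linear_combination h
        rw [this]; exact dvd_mul_right _ _
      have hpp : Prime (p : ℤ) := Nat.prime_iff_prime_int.1 hp
      have hlt : ∀ a : ℤ, a ≠ 0 → a.natAbs < p → ¬ (p : ℤ) ∣ a := by
        intro a ha hap hd
        have := Int.natAbs_dvd_natAbs.2 hd
        rw [Int.natAbs_natCast] at this
        exact absurd (Nat.le_of_dvd (Int.natAbs_pos.2 ha) this) (not_le.2 hap)
      rcases hpp.dvd_or_dvd hdvd with h1 | h1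
      · rcases hpp.dvd_or_dvd h1 with h2 | h2
        · exact hlt k hk0 hp3 (hpp.dvd_of_dvd_pow h2)
        · exact hn h2
      · exact hlt c0 hc0 hp2 h1
    have hW1 : (1 : ℝ) ≤ ‖((k ^ m * n * c0 + p * Z : ℤ) : ℂ)‖ := by
      rw [Complex.norm_intCast]
      exact_mod_cast Int.one_le_abs hWne
    refine hW1.trans ?_
    rw [hW, norm_neg, norm_mul, norm_pow, Complex.norm_intCast]
    have hsum : ‖∑ x ∈ S, (c x : ℂ) * (n • Complex.exp x - p • aeval (x : ℂ) g)‖ ≤
        B * (|C| ^ p / (p - 1)!) := by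
      refine (norm_sum_le _ _).trans ?_
      rw [hB, Finset.sum_mul]
      refine Finset.sum_le_sum fun x hx => ?_
      rw [norm_mul, Complex.norm_intCast]
      refine mul_le_mul_of_nonneg_left ?_ (abs_nonneg _)
      refine (hgr (hroot x hx)).trans ?_
      refine div_le_div_of_nonneg_right ?_ (Nat.cast_nonneg _)
      rw [← abs_pow]
      exact le_abs_self _
    calc |(k : ℝ)| ^ m * ‖∑ x ∈ S, (c x : ℂ) * (n • Complex.exp x - p • aeval (x : ℂ) g)‖
        ≤ |(k : ℝ)| ^ m * (B * (|C| ^ p / (p - 1)!)) := by gcongr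
      _ = B * M ^ p / (p - 1)! := by
          rw [hM, hm, mul_pow, ← pow_mul, mul_comm p]
          ring
  -- conclusion
  have hlim : Tendsto (fun n : ℕ => B * M * (M ^ n / (n ! : ℝ))) atTop (𝓝 0) := by
    have := (FloorSemiring.tendsto_pow_div_factorial_atTop M).const_mul (B * M)
    simpa using this
  obtain ⟨N, hN⟩ := eventually_atTop.1 (hlim.eventually_lt_const (show (0 : ℝ) < 1 by norm_num))
  obtain ⟨p, hp1, hp⟩ := Nat.exists_infinite_primes
    (N + (f.eval 0).natAbs + c0.natAbs + k.natAbs + 1)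
  have h1 := hmain p hp (by omega) (by omega) (by omega)
  have h2 := hN (p - 1) (by omega)
  have h3 : B * M ^ p / ((p - 1)! : ℝ) = B * M * (M ^ (p - 1) / ((p - 1)! : ℝ)) := by
    have : M ^ p = M ^ (p - 1) * M := by
      rw [← pow_succ, Nat.sub_add_cancel hp.one_le]
    rw [this]; ring
  rw [h3] at h1
  exact absurd h1 (not_le.2 h2)

end Pool.Agent.Helper77.LW
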