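import Pool.Agent.Helper77.LW.Core

/-!
# Lindemann-Weierstrass theorem: symmetrisation in the group algebra
-/

open Polynomial Filter Topology

namespace Pool.Agent.Helper77.LW

variable (K : IntermediateField ℚ ℂ)

/-- the exponential map as a monoid homomorphism -/
noncomputable def expHom : Multiplicative K →* ℂ where
  toFun x := Complex.exp ((Multiplicative.toAdd x : K) : ℂ)
  map_one' := by simp
  map_mul' x y := by simp [Complex.exp_add]

/-- evaluation of a formal exponential sum -/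
noncomputable def Ev : AddMonoidAlgebra K K →ₐ[K] ℂ := AddMonoidAlgebra.lift K ℂ K (expHom K)

theorem Ev_single (a b : K) :
    Ev K (AddMonoidAlgebra.single a b) = (b : ℂ) * Complex.exp (a : ℂ) := by
  unfold Ev
  rw [AddMonoidAlgebra.lift_single, Algebra.smul_def]
  rfl

theorem Ev_apply (u : AddMonoidAlgebra K K) :
    Ev K u = ∑ x ∈ u.coeff.support, ((u.coeff x : K) : ℂ) * Complex.exp (x : ℂ) := by
  unfold Ev
  rw [AddMonoidAlgebra.lift_apply]
  unfold Finsupp.sum
  refine Finset.sum_congr rfl fun x _ => ?_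
  show (u.coeff x) • (expHom K) (Multiplicative.ofAdd x) = _
  rw [Algebra.smul_def]
  rfl

/-- the action of a pair of automorphisms: the first on the coefficients, the second on the
exponents -/
noncomputable def Phi (g : (K ≃ₐ[ℚ] K) × (K ≃ₐ[ℚ] K)) :
    AddMonoidAlgebra K K →+* AddMonoidAlgebra K K :=
  (AddMonoidAlgebra.mapRingHom K (g.1 : K →+* K)).comp
    (AddMonoidAlgebra.mapDomainRingHom K ((g.2 : K →+* K) : K →+ K))

theorem Phi_single (g : (K ≃ₐ[ℚ] K) × (K ≃ₐ[ℚ] K)) (a b : K) :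
    Phi K g (AddMonoidAlgebra.single a b) = AddMonoidAlgebra.single (g.2 a) (g.1 b) := by
  simp [Phi]

theorem Phi_coeff (g : (K ≃ₐ[ℚ] K) × (K ≃ₐ[ℚ] K)) (u : AddMonoidAlgebra K K) (x : K) :
    (Phi K g u).coeff (g.2 x) = g.1 (u.coeff x) := by
  unfold Phi
  rw [RingHom.comp_apply, AddMonoidAlgebra.coeff_mapRingHom]
  have h1 : ((AddMonoidAlgebra.mapDomainRingHom K ((g.2 : K →+* K) : K →+ K)) u).coeff (g.2 x) =
      u.coeff x := by
    have h2 : ((AddMonoidAlgebra.mapDomainRingHom K ((g.2 : K →+* K) : K →+ K)) u).coeff =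
        Finsupp.mapDomain g.2 u.coeff := rfl
    rw [h2]
    exact Finsupp.mapDomain_apply g.2.injective _ _
  rw [h1]
  rfl

theorem Phi_mul (g h : (K ≃ₐ[ℚ] K) × (K ≃ₐ[ℚ] K)) (u : AddMonoidAlgebra K K) :
    Phi K g (Phi K h u) = Phi K (g * h) u := by
  refine AddMonoidAlgebra.ext (Finsupp.ext fun x => ?_)
  obtain ⟨z, rfl⟩ := g.2.surjective x
  obtain ⟨y, rfl⟩ := h.2.surjective z
  rw [Phi_coeff, Phi_coeff]
  have : g.2 (h.2 y) = (g * h).2 y := rfl
  rw [this, Phi_coeff]
  rfl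

theorem Phi_one (u : AddMonoidAlgebra K K) : Phi K 1 u = u := by
  refine AddMonoidAlgebra.ext (Finsupp.ext fun x => ?_)
  exact Phi_coeff K 1 u x

theorem Phi_injective (g : (K ≃ₐ[ℚ] K) × (K ≃ₐ[ℚ] K)) {u : AddMonoidAlgebra K K} (hu : u ≠ 0) :
    Phi K g u ≠ 0 := by
  intro h
  apply hu
  have h1 := congrArg (Phi K g⁻¹) h
  rw [Phi_mul, inv_mul_cancel, Phi_one, map_zero] at h1
  exact h1

variable [FiniteDimensional ℚ K] [IsGalois ℚ K]

/-- **Lindemann-Weierstrass**: a nonzero formal exponential sum with algebraic coefficients and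
exponents does not vanish. -/
theorem Ev_ne_zero {u : AddMonoidAlgebra K K} (hu : u ≠ 0) : Ev K u ≠ 0 := by
  classical
  intro hEv
  set w : AddMonoidAlgebra K K := ∏ g : (K ≃ₐ[ℚ] K) × (K ≃ₐ[ℚ] K), Phi K g u with hw
  have hw0 : w ≠ 0 := Finset.prod_ne_zero_iff.2 fun g _ => Phi_injective K g hu
  have hwG : ∀ g, Phi K g w = w := by
    intro g
    rw [hw, map_prod]
    simp only [Phi_mul]
    exact Fintype.prod_equiv (Equiv.mulLeft g) _ _ (fun _ => rfl)
  have hEw : Ev K w = 0 := by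
    rw [hw, map_prod]
    exact Finset.prod_eq_zero (Finset.mem_univ 1) (by rw [Phi_one, hEv])
  obtain ⟨x0, hx0⟩ : ∃ x0, w.coeff x0 ≠ 0 := by
    by_contra h
    push Not at h
    exact hw0 (AddMonoidAlgebra.ext (Finsupp.ext fun x => by simpa using h x))
  set s : AddMonoidAlgebra K K := ∑ τ : K ≃ₐ[ℚ] K, AddMonoidAlgebra.single (-(τ x0)) 1 with hs
  have hsG : ∀ g, Phi K g s = s := by
    intro g
    rw [hs, map_sum]
    simp only [Phi_single, map_neg, map_one]
    exact Fintype.sum_equiv (Equiv.mulLeft g.2) _ _ (fun _ => rfl)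
  set v := w * s with hv
  have hvG : ∀ g, Phi K g v = v := fun g => by rw [hv, map_mul, hwG, hsG]
  have hEvv : Ev K v = 0 := by rw [hv, map_mul, hEw, zero_mul]
  have hcoef2 : ∀ (τ : K ≃ₐ[ℚ] K) (u : AddMonoidAlgebra K K), (∀ g, Phi K g u = u) →
      ∀ x, u.coeff (τ x) = u.coeff x := by
    intro τ u hu x
    have h1 := Phi_coeff K (1, τ) u x
    rw [hu] at h1
    exact h1
  have hcoef1 : ∀ (σ : K ≃ₐ[ℚ] K) (x : K), σ (v.coeff x) = v.coeff x := by
    intro σ x
    have h1 := Phi_coeff K (σ, 1) v x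
    rw [hvG] at h1
    exact h1.symm
  have hv0 : v.coeff 0 = (Fintype.card (K ≃ₐ[ℚ] K) : K) * w.coeff x0 := by
    rw [hv, hs, Finset.mul_sum, AddMonoidAlgebra.coeff_sum, Finsupp.finsetSum_apply]
    have h1 : ∀ τ : K ≃ₐ[ℚ] K, (w * AddMonoidAlgebra.single (-(τ x0)) 1).coeff 0 = w.coeff x0 := by
      intro τ
      rw [AddMonoidAlgebra.coeff_mul_single_apply, mul_one, neg_neg, zero_add]
      exact hcoef2 τ w hwG x0
    rw [Finset.sum_congr rfl (fun τ _ => h1 τ)]
    simp
  have hv0' : v.coeff 0 ≠ 0 := by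
    rw [hv0]
    refine mul_ne_zero ?_ hx0
    exact_mod_cast Fintype.card_ne_zero
  -- rational coefficients
  have hrat : ∀ x, ∃ t : ℚ, v.coeff x = algebraMap ℚ K t := by
    intro x
    obtain ⟨t, ht⟩ := (IsGalois.mem_range_algebraMap_iff_fixed (v.coeff x)).2
      (fun σ => hcoef1 σ x)
    exact ⟨t, ht.symm⟩
  choose t ht using hrat
  -- a common denominator
  set D : ℕ := ∏ x ∈ v.coeff.support, (t x).den with hD
  have hD0 : D ≠ 0 := Finset.prod_ne_zero_iff.2 fun x _ => (t x).den_nz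
  have hint : ∀ x, ∃ c : ℤ, (D : K) * v.coeff x = (c : K) := by
    intro x
    by_cases hx : x ∈ v.coeff.support
    · obtain ⟨e, he⟩ := Finset.dvd_prod_of_mem (fun x => (t x).den) hx
      refine ⟨e * (t x).num, ?_⟩
      rw [ht x, hD, he]
      have h1 : ((t x).den : ℚ) * t x = (t x).num := by
        rw [mul_comm]; exact Rat.mul_den_eq_num _
      have h2 := congrArg (algebraMap ℚ K) h1
      rw [map_mul, map_natCast, map_intCast] at h2
      push_cast
      rw [← h2]
      ring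
    · refine ⟨0, ?_⟩
      rw [Finsupp.notMem_support_iff.1 hx]; simp
  choose c hc using hint
  have hc0 : c 0 ≠ 0 := by
    intro h
    have h1 := hc 0
    rw [h, Int.cast_zero] at h1
    rcases mul_eq_zero.1 h1 with h2 | h2
    · exact hD0 (by exact_mod_cast h2)
    · exact hv0' h2
  have hcG : ∀ (σ : K ≃ₐ[ℚ] K) (x : K), c (σ x) = c x := by
    intro σ x
    have h1 := hc (σ x)
    rw [hcoef2 σ v hvG, hc x] at h1
    exact_mod_cast h1.symm
  have hsG2 : ∀ (σ : K ≃ₐ[ℚ] K) (x : K), x ∈ v.coeff.support.erase 0 →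
      σ x ∈ v.coeff.support.erase 0 := by
    intro σ x hx
    rw [Finset.mem_erase, Finsupp.mem_support_iff] at hx ⊢
    refine ⟨fun h => hx.1 (by simpa using h), ?_⟩
    rw [hcoef2 σ v hvG]
    exact hx.2
  refine core K (v.coeff.support.erase 0) c (c 0) hc0 (Finset.notMem_erase _ _) hsG2 hcG ?_
  have h1 : (D : ℂ) * Ev K v = (c 0 : ℂ) + ∑ x ∈ v.coeff.support.erase 0,
      (c x : ℂ) * Complex.exp (x : ℂ) := by
    rw [Ev_apply, Finset.mul_sum]
    have h2 : ∀ x : K, (D : ℂ) * (((v.coeff x : K) : ℂ) * Complex.exp (x : ℂ)) =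
        (c x : ℂ) * Complex.exp (x : ℂ) := by
      intro x
      rw [← mul_assoc]
      congr 1
      exact_mod_cast congrArg (fun y : K => (y : ℂ)) (hc x)
    simp only [h2]
    have h3 : (0 : K) ∈ v.coeff.support := Finsupp.mem_support_iff.2 hv0'
    rw [← Finset.add_sum_erase _ _ h3]
    simp
  rw [← h1, hEvv, mul_zero]

end Pool.Agent.Helper77.LW
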